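import Pool.Agent.Zk42.UN.Good
import Pool.Agent.Zk42.UC.Main
import Pool.Agent.Zk42.UC.Desc

/-! The maps `a / x ^ d + b` on the projective line: bad places. -/

set_option autoImplicit false

namespace Pool.Agent.Zk42.UN

open Finset Polynomial OnePoint Pool.Agent.Zk42.UC

section val

variable {L : Type*} [Field L] {Γ : Type*} [LinearOrderedCommGroupWithZero Γ] (v : Valuation L Γ)
  {a b : L} {d : ℕ} {μ : L}

/-- the annulus which contains the repelling points -/
def InA (a b : L) (d : ℕ) (P : OnePoint L) : Prop :=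
  ∃ x : L, P = (x : OnePoint L) ∧ v b * v x ^ d = v a

/-- the basin of the attracting point -/
def InU (a b : L) (d : ℕ) (P : OnePoint L) : Prop :=
  P = ∞ ∨ ∃ x : L, P = (x : OnePoint L) ∧ v a < v b * v x ^ d

/-- the circle which contains the attracting point -/
def InB (b : L) (P : OnePoint L) : Prop := ∃ x : L, P = (x : OnePoint L) ∧ v x = v b

lemma b_ne (ht : v a < v b ^ (d + 1)) : v b ≠ 0 := by
  intro h0
  rw [h0, zero_pow (Nat.succ_ne_zero d)] at ht
  exact absurd ht (not_lt.2 zero_le)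

lemma InB.inU (ht : v a < v b ^ (d + 1)) {P : OnePoint L} (h : InB v b P) : InU v a b d P := by
  obtain ⟨x, rfl, hx⟩ := h
  exact Or.inr ⟨x, rfl, by rw [hx, ← pow_succ']; exact ht⟩

lemma InU.step (hd : 0 < d) {P : OnePoint L} (h : InU v a b d P) : InB v b (fn a b d P) := by
  rcases h with rfl | ⟨x, rfl, hx⟩
  · exact ⟨b, fn_infty, rfl⟩
  · have hx0 : x ≠ 0 := by
      rintro rfl
      rw [map_zero, zero_pow hd.ne', mul_zero] at hx
      exact absurd hx (not_lt.2 zero_le)
    refine ⟨_, fn_coe hx0, ?_⟩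
    have hvx : 0 < v x ^ d := pow_pos (zero_lt_iff.2 ((Valuation.ne_zero_iff v).2 hx0)) d
    apply Valuation.map_add_eq_of_lt_right
    rw [map_div₀, map_pow, div_lt_iff₀ hvx]
    exact hx

lemma InB.step (hd : 0 < d) (ht : v a < v b ^ (d + 1)) {P : OnePoint L} (h : InB v b P) :
    InB v b (fn a b d P) := (h.inU v ht).step v hd

lemma InB.iter (hd : 0 < d) (ht : v a < v b ^ (d + 1)) {P : OnePoint L} (h : InB v b P) (k : ℕ) :
    InB v b ((fn a b d)^[k] P) := by
  induction k with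
  | zero => exact h
  | succ k ih => rw [Function.iterate_succ_apply']; exact ih.step v hd ht

lemma cases_pos (ha0 : a ≠ 0) (hd : 0 < d) (ht : v a < v b ^ (d + 1)) (P : OnePoint L) :
    InA v a b d P ∨ InU v a b d P ∨ InU v a b d (fn a b d P) := by
  induction P using OnePoint.rec with
  | infty => exact Or.inr (Or.inl (Or.inl rfl))
  | coe x =>
    rcases lt_trichotomy (v b * v x ^ d) (v a) with h | h | h
    · right; right
      by_cases hx : x = 0
      · subst hx
        rw [fn_zero]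
        exact Or.inl rfl
      · rw [fn_coe hx]
        refine Or.inr ⟨_, rfl, ?_⟩
        have hvx : 0 < v x ^ d := pow_pos (zero_lt_iff.2 ((Valuation.ne_zero_iff v).2 hx)) d
        have h1 : v b < v (a / x ^ d) := by
          rw [map_div₀, map_pow, lt_div_iff₀ hvx]
          exact h
        rw [Valuation.map_add_eq_of_lt_left v h1]
        have hb := b_ne v ht
        calc v a < v b ^ (d + 1) := ht
          _ = v b * v b ^ d := pow_succ' _ _
          _ ≤ v b * v (a / x ^ d) ^ d := by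
            have := h1.le
            gcongr
    · exact Or.inl ⟨x, rfl, h⟩
    · exact Or.inr (Or.inl (Or.inr ⟨x, rfl, h⟩))

/-- periodic points -/
lemma per_cases (ha0 : a ≠ 0) (hd : 0 < d) (ht : v a < v b ^ (d + 1)) {P : OnePoint L}
    (hP : Per (fn a b d) P) : (∀ k, InA v a b d ((fn a b d)^[k] P)) ∨ InB v b P := by
  by_contra hcon
  push Not at hcon
  obtain ⟨⟨k, hk⟩, hB⟩ := hcon
  apply hB
  obtain ⟨N, hN, hper⟩ := hP
  have h1 : InB v b ((fn a b d)^[k + 2] P) := by
    rcases cases_pos v ha0 hd ht ((fn a b d)^[k] P) with h | h | h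
    · exact absurd h hk
    · have h2 := h.step v hd
      rw [← Function.iterate_succ_apply' (fn a b d) k P] at h2
      have h3 := h2.step v hd ht
      rwa [← Function.iterate_succ_apply' (fn a b d) (k + 1) P] at h3
    · rw [← Function.iterate_succ_apply' (fn a b d) k P] at h
      have h3 := h.step v hd
      rwa [← Function.iterate_succ_apply' (fn a b d) (k + 1) P] at h3
  have h2 := h1.iter v hd ht (N * (k + 2) - (k + 2))
  have hle : k + 2 ≤ N * (k + 2) := Nat.le_mul_of_pos_left _ hN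
  rwa [← Function.iterate_add_apply, Nat.sub_add_cancel hle, iter_mul hper] at h2

/-- contraction on the circle -/
lemma contract (hd : 0 < d) (ht : v a < v b ^ (d + 1)) {x y : L} (hx : v x = v b)
    (hy : v y = v b) (hne : x ≠ y) :
    v ((a / x ^ d + b) - (a / y ^ d + b)) < v (x - y) := by
  have hb := b_ne v ht
  have hx0 : x ≠ 0 := (Valuation.ne_zero_iff v).1 (by rw [hx]; exact hb)
  have hy0 : y ≠ 0 := (Valuation.ne_zero_iff v).1 (by rw [hy]; exact hb)
  have e : (a / x ^ d + b) - (a / y ^ d + b) =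
      -(a * ((x - y) * ∑ i ∈ range d, x ^ i * y ^ (d - 1 - i))) / (x ^ d * y ^ d) := by
    rw [(Commute.all x y).mul_geom_sum₂]
    field_simp
    ring
  have hxy : 0 < v (x - y) := zero_lt_iff.2 ((Valuation.ne_zero_iff v).2 (sub_ne_zero.2 hne))
  have hsum : v (∑ i ∈ range d, x ^ i * y ^ (d - 1 - i)) ≤ v b ^ (d - 1) := by
    apply Valuation.map_sum_le
    intro i hi
    rw [mem_range] at hi
    rw [map_mul, map_pow, map_pow, hx, hy, ← pow_add]
    apply le_of_eq
    congr 1
    omega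
  have hbd : 0 < v b ^ d * v b ^ d :=
    mul_pos (pow_pos (zero_lt_iff.2 hb) d) (pow_pos (zero_lt_iff.2 hb) d)
  rw [e, map_div₀, Valuation.map_neg, map_mul, map_mul, map_mul, map_pow, map_pow, hx, hy,
    div_lt_iff₀ hbd]
  have hb1 : 0 < v b ^ (d - 1) := pow_pos (zero_lt_iff.2 hb) _
  calc v a * (v (x - y) * v (∑ i ∈ range d, x ^ i * y ^ (d - 1 - i)))
      ≤ v a * (v (x - y) * v b ^ (d - 1)) := by gcongr
    _ < v b ^ (d + 1) * (v (x - y) * v b ^ (d - 1)) :=
        mul_lt_mul_of_pos_right ht (mul_pos hxy hb1)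
    _ = v (x - y) * (v b ^ d * v b ^ d) := by
        rw [← mul_assoc, mul_comm (v b ^ (d + 1)), mul_assoc, ← pow_add, ← pow_add]
        congr 2
        omega

/-- there is only one periodic point on the circle -/
lemma per_unique (hd : 0 < d) (ht : v a < v b ^ (d + 1)) {P Q : OnePoint L}
    (hP : Per (fn a b d) P) (hQ : Per (fn a b d) Q) (hPB : InB v b P) (hQB : InB v b Q) :
    P = Q := by
  by_contra hne
  obtain ⟨N, hN, e1, e2⟩ := common_period hP hQ
  have hstep : ∀ k, v (W 1 ((fn a b d)^[k + 1] P) ((fn a b d)^[k + 1] Q)) <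
      v (W 1 ((fn a b d)^[k] P) ((fn a b d)^[k] Q)) := by
    intro k
    obtain ⟨x, hx, hx'⟩ := hPB.iter v hd ht k
    obtain ⟨y, hy, hy'⟩ := hQB.iter v hd ht k
    have hb := b_ne v ht
    have hx0 : x ≠ 0 := (Valuation.ne_zero_iff v).1 (by rw [hx']; exact hb)
    have hy0 : y ≠ 0 := (Valuation.ne_zero_iff v).1 (by rw [hy']; exact hb)
    have hxy : x ≠ y := by
      rintro rfl
      exact hne (per_inj hP hQ (hx.trans hy.symm))
    rw [Function.iterate_succ_apply', Function.iterate_succ_apply', hx, hy, fn_coe hx0, fn_coe hy0,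
      W_coe, W_coe, one_mul, one_mul]
    exact contract v hd ht hx' hy' hxy
  have hanti : StrictAnti (fun k => v (W 1 ((fn a b d)^[k] P) ((fn a b d)^[k] Q))) :=
    strictAnti_nat_of_succ_lt hstep
  have h1 := hanti hN
  simp only [Function.iterate_zero, id] at h1
  rw [e1, e2] at h1
  exact lt_irrefl _ h1

end val

section val2

variable {L : Type*} [Field L] [DecidableEq L] {Γ : Type*} [LinearOrderedCommGroupWithZero Γ]
  (v : Valuation L Γ) {a b : L} {d : ℕ} {μ : L}

/-- one step in the annulus -/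
lemma annulus_step (hμ : IsPrimitiveRoot μ d) (hd : 0 < d) (hvd : v (d : L) = 1) {x y : L}
    (hy0 : v y ≠ 0) (hxy : v x = v y) {ζ : L} (hζ : ζ ^ d = 1) :
    v (x - ζ * y) = v y ∨
      v (x - ζ * y) * (v a / v y ^ (d + 1)) = v ((a / x ^ d + b) - (a / y ^ d + b)) := by
  by_cases h : v (x - ζ * y) = v y
  · exact Or.inl h
  right
  have hlt : v (x - ζ * y) < v y := by
    refine lt_of_le_of_ne ?_ h
    have := v_sub_le v hd.ne' hζ x y
    rwa [hxy, max_self] at this
  have hx0 : x ≠ 0 := (Valuation.ne_zero_iff v).1 (by rw [hxy]; exact hy0)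
  have hy0' : y ≠ 0 := (Valuation.ne_zero_iff v).1 hy0
  have e : (a / x ^ d + b) - (a / y ^ d + b) =
      -(a * ∏ ζ' ∈ nthRootsFinset d (1 : L), (x - ζ' * y)) / (x ^ d * y ^ d) := by
    rw [← hμ.pow_sub_pow_eq_prod_sub_mul x y hd]
    field_simp
    ring
  rw [e, map_div₀, Valuation.map_neg, map_mul, map_mul, map_pow, map_pow, map_prod,
    ← mul_prod_erase _ _ ((mem_roots hd).2 hζ)]
  have h1 : ∏ ζ' ∈ (nthRootsFinset d (1 : L)).erase ζ, v (x - ζ' * y) = v y ^ (d - 1) := by
    have hc : ((nthRootsFinset d (1 : L)).erase ζ).card = d - 1 := by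
      rw [card_erase_of_mem ((mem_roots hd).2 hζ), hμ.card_nthRootsFinset]
    rw [← hc]
    apply prod_eq_pow_card
    intro ζ' hζ'
    rw [mem_erase, mem_roots hd] at hζ'
    have e : x - ζ' * y = (x - ζ * y) + (ζ - ζ') * y := by ring
    rw [e, Valuation.map_add_eq_of_lt_right v]
    · rw [map_mul, v_zeta_sub v hd hvd hζ hζ'.2 (Ne.symm hζ'.1), one_mul]
    · rw [map_mul, v_zeta_sub v hd hvd hζ hζ'.2 (Ne.symm hζ'.1), one_mul]
      exact hlt
  rw [h1, hxy]
  rw [mul_div_assoc', div_eq_div_iff (pow_ne_zero _ hy0)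
    (mul_ne_zero (pow_ne_zero _ hy0) (pow_ne_zero _ hy0))]
  calc v (x - ζ * y) * v a * (v y ^ d * v y ^ d)
      = v (x - ζ * y) * v a * v y ^ (d + d) := by rw [pow_add]
    _ = v (x - ζ * y) * v a * (v y ^ (d - 1) * v y ^ (d + 1)) := by
        rw [← pow_add]
        congr 2
        omega
    _ = _ := by ac_rfl

omit [DecidableEq L] in
lemma InA.size {r : Γ} (hd : 0 < d) (hb : v b ≠ 0) (hr : v b * r ^ d = v a) {x : L}
    (h : InA v a b d (x : OnePoint L)) : v x = r := by
  obtain ⟨y, hy, hy'⟩ := h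
  rw [OnePoint.coe_injective hy]
  exact eq_of_pow_eq hd.ne' (mul_left_cancel₀ hb (hy'.trans hr.symm))

/-- differences of periodic points in the annulus -/
lemma annulus_diff (hμ : IsPrimitiveRoot μ d) (hd : 0 < d) (hvd : v (d : L) = 1) {r : Γ}
    (hb : v b ≠ 0) (hr : v b * r ^ d = v a) (hr0 : r ≠ 0) (k : ℕ) :
    ∀ x y : L, (∀ j, InA v a b d ((fn a b d)^[j] (x : OnePoint L))) →
      (∀ j, InA v a b d ((fn a b d)^[j] (y : OnePoint L))) →
      v (W 1 ((fn a b d)^[k] (x : OnePoint L)) ((fn a b d)^[k] (y : OnePoint L))) = r →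
      ∃ m : ℕ, v (x - y) * (v a / r ^ (d + 1)) ^ m = r := by
  induction k with
  | zero =>
    intro x y _ _ h
    refine ⟨0, ?_⟩
    simp only [Function.iterate_zero, id] at h
    rw [W_coe, one_mul] at h
    rw [pow_zero, mul_one, h]
  | succ k ih =>
    intro x y hx hy h
    have sx := InA.size v hd hb hr (hx 0)
    have sy := InA.size v hd hb hr (hy 0)
    have hx0 : x ≠ 0 := (Valuation.ne_zero_iff v).1 (by rw [sx]; exact hr0)
    have hy0 : y ≠ 0 := (Valuation.ne_zero_iff v).1 (by rw [sy]; exact hr0)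
    rw [Function.iterate_succ_apply, Function.iterate_succ_apply, fn_coe hx0, fn_coe hy0] at h
    obtain ⟨m, hm⟩ := ih (a / x ^ d + b) (a / y ^ d + b)
      (fun j => by
        have := hx (j + 1)
        rwa [Function.iterate_succ_apply, fn_coe hx0] at this)
      (fun j => by
        have := hy (j + 1)
        rwa [Function.iterate_succ_apply, fn_coe hy0] at this) h
    have h3 := annulus_step v (a := a) (b := b) hμ hd hvd (x := x) (y := y) (by rw [sy]; exact hr0)
      (sx.trans sy.symm) (one_pow d)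
    rw [one_mul, sy] at h3
    rcases h3 with h3 | h3
    · exact ⟨0, by rw [pow_zero, mul_one]; exact h3⟩
    · refine ⟨m + 1, ?_⟩
      refine Eq.trans ?_ hm
      rw [← h3, pow_succ]
      ac_rfl

/-- the factors of periodic points in the annulus -/
lemma annulus_factor (hμ : IsPrimitiveRoot μ d) (hd : 0 < d) (hvd : v (d : L) = 1) {r : Γ}
    (hb : v b ≠ 0) (hr : v b * r ^ d = v a) (hr0 : r ≠ 0) (hq : 1 < v a / r ^ (d + 1))
    {x y : L} (hxp : Per (fn a b d) (x : OnePoint L)) (hyp : Per (fn a b d) (y : OnePoint L))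
    (hne : x ≠ y)
    (hx : ∀ j, InA v a b d ((fn a b d)^[j] (x : OnePoint L)))
    (hy : ∀ j, InA v a b d ((fn a b d)^[j] (y : OnePoint L))) {ζ : L} (hζ : ζ ^ d = 1) :
    ∃ m : ℕ, v (x - ζ * y) * (v a / r ^ (d + 1)) ^ m = r := by
  have hne' : (x : OnePoint L) ≠ (y : OnePoint L) := fun h => hne (OnePoint.coe_injective h)
  have hrep : ∀ j, ∃ z t : L, (fn a b d)^[j] (x : OnePoint L) = z ∧
      (fn a b d)^[j] (y : OnePoint L) = t ∧ v z = r ∧ v t = r ∧ z ≠ 0 ∧ t ≠ 0 ∧ z ≠ t := by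
    intro j
    obtain ⟨z, hz, hz'⟩ := hx j
    obtain ⟨t, ht, ht'⟩ := hy j
    have sz := InA.size v hd hb hr ⟨z, rfl, hz'⟩
    have st := InA.size v hd hb hr ⟨t, rfl, ht'⟩
    refine ⟨z, t, hz, ht, sz, st, (Valuation.ne_zero_iff v).1 (by rw [sz]; exact hr0),
      (Valuation.ne_zero_iff v).1 (by rw [st]; exact hr0), ?_⟩
    rintro rfl
    exact hne' (per_inj hxp hyp (hz.trans ht.symm))
  obtain ⟨k, hk⟩ : ∃ k : ℕ, v (W 1 ((fn a b d)^[k] (x : OnePoint L))
      ((fn a b d)^[k] (y : OnePoint L))) = r := by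
    by_contra hcon
    push Not at hcon
    obtain ⟨N, hN, e1, e2⟩ := common_period hxp hyp
    have hmono : StrictMono (fun k => v (W 1 ((fn a b d)^[k] (x : OnePoint L))
        ((fn a b d)^[k] (y : OnePoint L)))) := by
      apply strictMono_nat_of_lt_succ
      intro k
      obtain ⟨z, t, hz, ht, sz, st, hz0, ht0, hzt⟩ := hrep k
      have h2 := hcon k
      show v (W 1 ((fn a b d)^[k] (x : OnePoint L)) ((fn a b d)^[k] (y : OnePoint L))) <
        v (W 1 ((fn a b d)^[k + 1] (x : OnePoint L)) ((fn a b d)^[k + 1] (y : OnePoint L)))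
      rw [Function.iterate_succ_apply', Function.iterate_succ_apply']
      rw [hz, ht] at h2 ⊢
      rw [fn_coe hz0, fn_coe ht0, W_coe, W_coe, one_mul, one_mul]
      rw [W_coe, one_mul] at h2
      have h3 := annulus_step v (a := a) (b := b) hμ hd hvd (x := z) (y := t)
        (by rw [st]; exact hr0) (sz.trans st.symm) (one_pow d)
      rw [one_mul, st] at h3
      rw [← h3.resolve_left h2]
      have h5 : 0 < v (z - t) := zero_lt_iff.2 ((Valuation.ne_zero_iff v).2 (sub_ne_zero.2 hzt))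
      calc v (z - t) = v (z - t) * 1 := (mul_one _).symm
        _ < _ := mul_lt_mul_of_pos_left hq h5
    have h1 := hmono hN
    simp only [Function.iterate_zero, id] at h1
    rw [e1, e2] at h1
    exact lt_irrefl _ h1
  obtain ⟨z, t, hz, ht, sz, st, hz0, ht0, hzt⟩ := hrep 0
  simp only [Function.iterate_zero, id] at hz ht
  have hzx := OnePoint.coe_injective hz
  have hty := OnePoint.coe_injective ht
  subst hzx
  subst hty
  have h3 := annulus_step v (a := a) (b := b) hμ hd hvd (x := x) (y := y)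
    (by rw [st]; exact hr0) (sz.trans st.symm) hζ
  rw [st] at h3
  rcases h3 with h3 | h3
  · exact ⟨0, by rw [pow_zero, mul_one]; exact h3⟩
  · -- the images
    obtain ⟨k', hk'⟩ : ∃ k : ℕ, v (W 1 ((fn a b d)^[k] ((a / x ^ d + b : L) : OnePoint L))
        ((fn a b d)^[k] ((a / y ^ d + b : L) : OnePoint L))) = r := by
      obtain ⟨N, hN, e1, e2⟩ := common_period hxp hyp
      refine ⟨N * (k + 1) - 1 + k, ?_⟩
      rw [← fn_coe hz0, ← fn_coe ht0, ← Function.iterate_succ_apply,
        ← Function.iterate_succ_apply]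
      have hle : 1 ≤ N * (k + 1) := Nat.mul_pos hN (Nat.succ_pos k)
      have e : (N * (k + 1) - 1 + k).succ = k + N * (k + 1) := by omega
      rw [e, Function.iterate_add_apply, iter_mul e1, Function.iterate_add_apply, iter_mul e2]
      exact hk
    obtain ⟨m, hm⟩ := annulus_diff v hμ hd hvd hb hr hr0 k' _ _
      (fun j => by
        have := hx (j + 1)
        rwa [Function.iterate_succ_apply, fn_coe hz0] at this)
      (fun j => by
        have := hy (j + 1)
        rwa [Function.iterate_succ_apply, fn_coe ht0] at this) hk'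
    refine ⟨m + 1, ?_⟩
    refine Eq.trans ?_ hm
    rw [← h3, pow_succ]
    ac_rfl

omit [DecidableEq L] in
lemma v_sub_const (hd : d ≠ 0) {x y : L} (h : v x ≠ v y) {ζ : L} (hζ : ζ ^ d = 1) :
    v (x - ζ * y) = max (v x) (v y) := by
  have e1 : v (ζ * y) = v y := by rw [map_mul, v_zeta v hd hζ, one_mul]
  rcases lt_or_gt_of_ne h with h | h
  · rw [max_eq_right h.le]
    have e : x - ζ * y = -(ζ * y - x) := by ring
    rw [e, Valuation.map_neg, Valuation.map_sub_eq_of_lt_left, e1]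
    rw [e1]; exact h
  · rw [max_eq_left h.le]
    apply Valuation.map_sub_eq_of_lt_left
    rw [e1]; exact h

omit [DecidableEq L] in
/-- numbers on the annulus -/
lemma r_facts (hd : 0 < d) (ha0 : a ≠ 0) (ht : v a < v b ^ (d + 1)) {r : Γ}
    (hr : v b * r ^ d = v a) : v b ≠ 0 ∧ r ≠ 0 ∧ r < v b ∧ 1 < v a / r ^ (d + 1) := by
  have hb := b_ne v ht
  have hva : v a ≠ 0 := (Valuation.ne_zero_iff v).2 ha0
  have hr0 : r ≠ 0 := by
    rintro rfl
    rw [zero_pow hd.ne', mul_zero] at hr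
    exact hva hr.symm
  have hlt : r < v b := by
    by_contra hc
    push Not at hc
    have : v b ^ (d + 1) ≤ v b * r ^ d := by
      rw [pow_succ']
      gcongr
    rw [hr] at this
    exact absurd ht (not_lt.2 this)
  refine ⟨hb, hr0, hlt, ?_⟩
  have hrp : 0 < r ^ (d + 1) := pow_pos (zero_lt_iff.2 hr0) _
  rw [one_lt_div₀ hrp, ← hr, pow_succ']
  exact mul_lt_mul_of_pos_right hlt (pow_pos (zero_lt_iff.2 hr0) _)

/-- periodic pairs at bad places -/
lemma bad_perN {n : ℕ} (hμ : IsPrimitiveRoot μ d) (hd : 0 < d) (hvd : v (d : L) = 1)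
    (ha0 : a ≠ 0) (ht : v a < v b ^ (d + 1)) {x y : L}
    (hx : Per (fn a b d) (x : OnePoint L)) (hy : Per (fn a b d) (y : OnePoint L)) (hne : x ≠ y)
    (hC : v b * v y ^ d = v a → ∃ h : Γ, v a = v y ^ (d + 1) * h ^ n) {ζ₁ ζ₂ : L}
    (h₁ : ζ₁ ^ d = 1) (h₂ : ζ₂ ^ d = 1) :
    ∃ g : Γ, v (x - ζ₁ * y) = v (x - ζ₂ * y) * g ^ n := by
  have hconst : v x ≠ v y → ∃ g : Γ, v (x - ζ₁ * y) = v (x - ζ₂ * y) * g ^ n := by
    intro h
    exact ⟨1, by rw [v_sub_const v hd.ne' h h₁, v_sub_const v hd.ne' h h₂, one_pow, mul_one]⟩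
  rcases per_cases v ha0 hd ht hx with hxA | hxB <;> rcases per_cases v ha0 hd ht hy with hyA | hyB
  · obtain ⟨y', hy', hr⟩ := hyA 0
    have hyy := OnePoint.coe_injective hy'
    subst hyy
    obtain ⟨hb, hr0, hlt, hq⟩ := r_facts v hd ha0 ht hr
    obtain ⟨m₁, e₁⟩ := annulus_factor v hμ hd hvd hb hr hr0 hq hx hy hne hxA hyA h₁
    obtain ⟨m₂, e₂⟩ := annulus_factor v hμ hd hvd hb hr hr0 hq hx hy hne hxA hyA h₂
    obtain ⟨h, hh⟩ := hC hr
    refine bad_ratio e₁ e₂ (h := h) ?_ (ne_of_gt (lt_trans zero_lt_one hq))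
    rw [hh, mul_div_cancel_left₀ _ (pow_ne_zero _ hr0)]
  · obtain ⟨x', hx', hr⟩ := hxA 0
    have hxx := OnePoint.coe_injective hx'
    subst hxx
    obtain ⟨hb, hr0, hlt, hq⟩ := r_facts v hd ha0 ht hr
    obtain ⟨y', hy', hy''⟩ := hyB
    have hyy := OnePoint.coe_injective hy'
    subst hyy
    exact hconst (by rw [hy'']; exact hlt.ne)
  · obtain ⟨y', hy', hr⟩ := hyA 0
    have hyy := OnePoint.coe_injective hy'
    subst hyy
    obtain ⟨hb, hr0, hlt, hq⟩ := r_facts v hd ha0 ht hr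
    obtain ⟨x', hx', hx''⟩ := hxB
    have hxx := OnePoint.coe_injective hx'
    subst hxx
    exact hconst (by rw [hx'']; exact hlt.ne')
  · exact absurd (OnePoint.coe_injective (per_unique v hd ht hx hy hxB hyB)) hne

/-- a point with image `ζ z`, `z` a fixed point -/
lemma bad_tailN {n : ℕ} (hμ : IsPrimitiveRoot μ d) (hd : 0 < d) (hvd : v (d : L) = 1)
    (ha0 : a ≠ 0) (ht : v a < v b ^ (d + 1)) {x z ζ : L} (hx0 : x ≠ 0) (hz0 : z ≠ 0)
    (hz : fn a b d (z : OnePoint L) = z) (hζ : ζ ^ d = 1) (hζ1 : ζ ≠ 1)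
    (h1 : fn a b d (x : OnePoint L) = ((ζ * z : L) : OnePoint L))
    (hC : v b * v z ^ d = v a → ∃ h : Γ, v a = v z ^ (d + 1) * h ^ n) {ζ₁ ζ₂ : L}
    (h₁ : ζ₁ ^ d = 1) (h₂ : ζ₂ ^ d = 1) :
    ∃ g : Γ, v (x - ζ₁ * z) = v (x - ζ₂ * z) * g ^ n := by
  have hconst : v x ≠ v z → ∃ g : Γ, v (x - ζ₁ * z) = v (x - ζ₂ * z) * g ^ n := by
    intro h
    exact ⟨1, by rw [v_sub_const v hd.ne' h h₁, v_sub_const v hd.ne' h h₂, one_pow, mul_one]⟩
  have e1 : a / x ^ d + b = ζ * z := by
    rw [fn_coe hx0] at h1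
    exact OnePoint.coe_injective h1
  have e2 : a / z ^ d + b = z := by
    rw [fn_coe hz0] at hz
    exact OnePoint.coe_injective hz
  have e3 : v ((a / x ^ d + b) - (a / z ^ d + b)) = v z := by
    rw [e1, e2]
    have e : ζ * z - z = (ζ - 1) * z := by ring
    rw [e, map_mul, v_zeta_one v hd hvd hζ hζ1, one_mul]
  rcases per_cases v ha0 hd ht (P := (z : OnePoint L)) ⟨1, one_pos, hz⟩ with hzA | hzB
  · obtain ⟨z', hz', hr⟩ := hzA 0
    have hzz := OnePoint.coe_injective hz'
    subst hzz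
    obtain ⟨hb, hr0, hlt, hq⟩ := r_facts v hd ha0 ht hr
    -- `x` is in the annulus
    have hxA : InA v a b d (x : OnePoint L) := by
      rcases cases_pos v ha0 hd ht (x : OnePoint L) with h | h | h
      · exact h
      · exfalso
        obtain ⟨y, hy, hy'⟩ := h.step v hd
        rw [h1] at hy
        rw [← OnePoint.coe_injective hy, map_mul, v_zeta v hd.ne' hζ, one_mul] at hy'
        exact hlt.ne hy'
      · exfalso
        rw [h1] at h
        rcases h with h | ⟨y, hy, hy'⟩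
        · exact OnePoint.coe_ne_infty _ h
        · rw [← OnePoint.coe_injective hy, map_mul, v_zeta v hd.ne' hζ, one_mul, hr] at hy'
          exact lt_irrefl _ hy'
    have sx := InA.size v hd hb hr hxA
    have hm : ∀ ζ' : L, ζ' ^ d = 1 → ∃ m : ℕ, v (x - ζ' * z) * (v a / v z ^ (d + 1)) ^ m = v z := by
      intro ζ' hζ'
      rcases annulus_step v (a := a) (b := b) hμ hd hvd hr0 sx hζ' with h | h
      · exact ⟨0, by rw [pow_zero, mul_one]; exact h⟩
      · exact ⟨1, by rw [pow_one, h, e3]⟩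
    obtain ⟨m₁, e₁⟩ := hm ζ₁ h₁
    obtain ⟨m₂, e₂⟩ := hm ζ₂ h₂
    obtain ⟨h, hh⟩ := hC hr
    refine bad_ratio e₁ e₂ (h := h) ?_ (ne_of_gt (lt_trans zero_lt_one hq))
    rw [hh, mul_div_cancel_left₀ _ (pow_ne_zero _ hr0)]
  · obtain ⟨z', hz', hzb⟩ := hzB
    have hzz := OnePoint.coe_injective hz'
    subst hzz
    apply hconst
    intro hxz
    have hne : x ≠ z := by
      rintro rfl
      rw [sub_self, map_zero] at e3
      exact hz0 ((Valuation.zero_iff v).1 e3.symm)
    have h3 := contract v hd ht (hxz.trans hzb) hzb hne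
    rw [e3] at h3
    have h4 := v_sub_le v hd.ne' (one_pow d) x z
    rw [one_mul, hxz, max_self] at h4
    exact absurd (h3.trans_le h4) (lt_irrefl _)

end val2

end Pool.Agent.Zk42.UN
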