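import Pool.Agent.Zk42.UN.Main

/-! All but finitely many maps `a / x ^ d + b` have no preperiodic points besides the points `ζ w`,
`w` a fixed point. -/

set_option autoImplicit false

namespace Pool.Agent.Zk42.UN

open Finset Polynomial OnePoint Pool.Agent.Zk42.UC

section abs

variable {K : Type*} [Field K] {a b : K} {d : ℕ}

/-- the finite set of exceptional pairs -/
noncomputable def excN [DecidableEq K] (d : ℕ) (R U : Finset K) : Finset (K × K) :=
  insert (-1, 1) ((U.image fun ζ => (1 - ζ, ζ)) ∪ (R ×ˢ (U ×ˢ U)).image fun p =>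
    ((p.2.1 - p.2.2) / ((p.1 ^ d)⁻¹ - 1), p.2.2 - (p.2.1 - p.2.2) / ((p.1 ^ d)⁻¹ - 1)))

lemma mem_excN [DecidableEq K] {R U : Finset K} {x y ρ₁ ρ₂ : K} (hx : x ≠ 0) (hy : y ≠ 0)
    (hρ : x / y ∈ R) (hρd : (x / y) ^ d ≠ 1) (h₁ : ρ₁ ∈ U) (h₂ : ρ₂ ∈ U)
    (e1 : a / x ^ d + b = ρ₁ * y)
    (e2 : a / y ^ d + b = ρ₂ * y) : (a / y ^ (d + 1), b / y) ∈ excN d R U := by
  have hρ0 : x / y ≠ 0 := div_ne_zero hx hy
  have hs : ((x / y) ^ d)⁻¹ - 1 ≠ 0 := by
    rw [sub_ne_zero]
    intro h
    exact hρd (inv_eq_one.1 h)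
  have e3 : a / y ^ (d + 1) + b / y = ρ₂ := by
    apply mul_right_cancel₀ hy
    rw [← e2]
    field_simp
    ring
  have e4 : a / y ^ (d + 1) * ((x / y) ^ d)⁻¹ + b / y = ρ₁ := by
    apply mul_right_cancel₀ hy
    rw [← e1, div_pow]
    field_simp
    ring
  have e5 : a / y ^ (d + 1) = (ρ₁ - ρ₂) / (((x / y) ^ d)⁻¹ - 1) := by
    rw [eq_div_iff hs, ← e3, ← e4]
    ring
  unfold excN
  refine mem_insert_of_mem (mem_union_right _ (mem_image.2 ⟨(x / y, ρ₁, ρ₂),
    mem_product.2 ⟨hρ, mem_product.2 ⟨h₁, h₂⟩⟩, ?_⟩))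
  show ((ρ₁ - ρ₂) / (((x / y) ^ d)⁻¹ - 1), ρ₂ - (ρ₁ - ρ₂) / (((x / y) ^ d)⁻¹ - 1)) = _
  rw [← e5]
  ext
  · rfl
  · show ρ₂ - a / y ^ (d + 1) = b / y
    rw [← e3]
    ring

/-- the alternative -/
theorem dichotomyN [DecidableEq K] (ha : a ≠ 0) (hb : b ≠ 0) (hd : 0 < d) {R U : Finset K}
    (hRd : ∀ ρ ∈ R, ρ ^ d ≠ 1) (hRU : R ⊆ U) (hU : ∀ ζ : K, ζ ^ d = 1 → ζ ∈ U) (hU0 : (0 : K) ∈ U)
    (h1 : ∀ x y : K, x ≠ 0 → y ≠ 0 → Per (fn a b d) (x : OnePoint K) →
        Per (fn a b d) (y : OnePoint K) → x ≠ y → x / y ∈ R)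
    (h3 : ∀ x z ζ : K, x ≠ 0 → z ≠ 0 → fn a b d (z : OnePoint K) = z → ζ ^ d = 1 → ζ ≠ 1 →
        fn a b d (x : OnePoint K) = ((ζ * z : K) : OnePoint K) → x / z ∈ R) :
    (∃ y : K, y ≠ 0 ∧ (a / y ^ (d + 1), b / y) ∈ excN d R U) ∨
      (∀ P : OnePoint K, ¬ PP (fn a b d) P) ∨
      ∃ w : K, w ≠ 0 ∧ fn a b d (w : OnePoint K) = w ∧ ∀ P : OnePoint K,
        PP (fn a b d) P ↔ ∃ x : K, P = x ∧ x ^ d = w ^ d := by
  by_cases hex : ∃ y : K, y ≠ 0 ∧ (a / y ^ (d + 1), b / y) ∈ excN d R U
  · exact Or.inl hex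
  right
  have key : ∀ x y : K, x ≠ 0 → y ≠ 0 → Per (fn a b d) (x : OnePoint K) →
      Per (fn a b d) (y : OnePoint K) → x = y := by
    intro x y hx0 hy0 hx hy
    by_contra hne
    have hmem : ∀ z : K, z ≠ 0 → Per (fn a b d) (z : OnePoint K) → (a / z ^ d + b) / y ∈ U := by
      intro z hz0 hz
      have hm := hz.map
      rw [fn_coe hz0] at hm
      by_cases hc0 : a / z ^ d + b = 0
      · rw [hc0, zero_div]
        exact hU0
      by_cases hzy : a / z ^ d + b = y
      · rw [hzy, div_self hy0]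
        exact hU 1 (one_pow d)
      · exact hRU (h1 _ y hc0 hy0 hm hy hzy)
    have hρ := h1 x y hx0 hy0 hx hy hne
    exact hex ⟨y, hy0, mem_excN hx0 hy0 hρ (hRd _ hρ) (hmem x hx0 hx) (hmem y hy0 hy)
      (div_mul_cancel₀ _ hy0).symm (div_mul_cancel₀ _ hy0).symm⟩
  -- `b` is not periodic
  have hbp : ¬ Per (fn a b d) (b : OnePoint K) := by
    intro h
    have hm := h.map
    rw [fn_coe hb] at hm
    by_cases hc0 : a / b ^ d + b = 0
    · apply hex
      refine ⟨b, hb, ?_⟩
      unfold excN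
      have e1 : a / b ^ (d + 1) = -1 := by
        have e2 : a = -(b * b ^ d) := by
          field_simp at hc0
          linear_combination hc0
        rw [e2, pow_succ']
        field_simp
      rw [e1, div_self hb]
      exact mem_insert_self _ _
    · have e := key _ b hc0 hb hm h
      have e2 : a / b ^ d = 0 := by linear_combination e
      rw [div_eq_zero_iff] at e2
      exact e2.elim ha (pow_ne_zero _ hb)
  have hcoe : ∀ P : OnePoint K, Per (fn a b d) P → ∃ x : K, x ≠ 0 ∧ P = x := by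
    intro P hP
    induction P using OnePoint.rec with
    | infty => exact absurd hP.map hbp
    | coe x =>
      by_cases hx : x = 0
      · subst hx
        exfalso
        have h2 := hP.iter 2
        apply hbp
        have e : (fn a b d)^[2] ((0 : K) : OnePoint K) = (b : OnePoint K) := by
          rw [Function.iterate_succ_apply, fn_zero]
          rfl
        rwa [e] at h2
      · exact ⟨x, hx, rfl⟩
  by_cases hno : ∀ P : OnePoint K, ¬ PP (fn a b d) P
  · exact Or.inl hno
  right
  push Not at hno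
  obtain ⟨P0, hP0⟩ := hno
  obtain ⟨k0, hk0⟩ := hP0.exists_per
  obtain ⟨w, hw0, hw⟩ := hcoe _ hk0
  rw [hw] at hk0
  have honly : ∀ P : OnePoint K, Per (fn a b d) P → P = w := by
    intro P hP
    obtain ⟨x, hx0, rfl⟩ := hcoe P hP
    rw [key x w hx0 hw0 hP hk0]
  have hfw : fn a b d (w : OnePoint K) = w := honly _ hk0.map
  have efw : a / w ^ d + b = w := by
    rw [fn_coe hw0] at hfw
    exact OnePoint.coe_injective hfw
  refine ⟨w, hw0, hfw, fun P => ⟨fun hP => ?_, ?_⟩⟩
  swap
  · rintro ⟨x, rfl, hx⟩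
    have hx0 : x ≠ 0 := by
      rintro rfl
      rw [zero_pow hd.ne'] at hx
      exact pow_ne_zero _ hw0 hx.symm
    have hfx : fn a b d (x : OnePoint K) = w := by
      rw [← hfw, fn_coe hx0, fn_coe hw0, hx]
    refine ⟨1, 2, by norm_num, ?_⟩
    show fn a b d (x : OnePoint K) = fn a b d (fn a b d (x : OnePoint K))
    rw [hfx, hfw]
  by_cases hPp : Per (fn a b d) P
  · exact ⟨w, honly P hPp, rfl⟩
  classical
  have hexj := hP.exists_per
  set j := Nat.find hexj with hj
  have hjs : Per (fn a b d) ((fn a b d)^[j] P) := Nat.find_spec hexj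
  have hj0 : j ≠ 0 := by
    intro h0
    rw [h0] at hjs
    exact hPp hjs
  obtain ⟨k, hk⟩ : ∃ k, j = k + 1 := ⟨j - 1, by omega⟩
  have hknot : ¬ Per (fn a b d) ((fn a b d)^[k] P) := Nat.find_min hexj (by omega)
  have hkw : fn a b d ((fn a b d)^[k] P) = w := by
    rw [← Function.iterate_succ_apply' (fn a b d)]
    rw [hk] at hjs
    exact honly _ hjs
  -- the last nonperiodic point
  obtain ⟨z, hz0, hz, hzw⟩ : ∃ z : K, z ≠ 0 ∧ (fn a b d)^[k] P = z ∧ z ^ d = w ^ d := by
    generalize (fn a b d)^[k] P = Q at hkw hknot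
    induction Q using OnePoint.rec with
    | infty =>
      exfalso
      rw [fn_infty] at hkw
      have := OnePoint.coe_injective hkw
      subst this
      have e2 : a / b ^ d = 0 := by linear_combination efw
      rw [div_eq_zero_iff] at e2
      exact e2.elim ha (pow_ne_zero _ hb)
    | coe z =>
      by_cases hz0 : z = 0
      · subst hz0
        rw [fn_zero] at hkw
        exact absurd hkw (OnePoint.infty_ne_coe _)
      · refine ⟨z, hz0, rfl, ?_⟩
        rw [fn_coe hz0] at hkw
        have e := OnePoint.coe_injective hkw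
        rw [← efw] at e
        have e2 : a / z ^ d = a / (a / w ^ d + b) ^ d := by
          rw [efw]
          rw [efw] at e
          linear_combination e - efw
        rw [efw] at e2
        field_simp at e2
        exact e2.symm
  rcases Nat.eq_zero_or_pos k with hk0' | hkpos
  · rw [hk0'] at hz
    exact ⟨z, hz, hzw⟩
  exfalso
  obtain ⟨i, hi⟩ : ∃ i, k = i + 1 := ⟨k - 1, by omega⟩
  have hzne : z ≠ w := by
    rintro rfl
    rw [hz] at hknot
    exact hknot hk0
  have hζ : (z / w) ^ d = 1 := by rw [div_pow, hzw, div_self (pow_ne_zero _ hw0)]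
  have hζ1 : z / w ≠ 1 := fun h => hzne ((div_eq_one_iff_eq hw0).1 h)
  have hzz : z = z / w * w := (div_mul_cancel₀ _ hw0).symm
  rw [hi, Function.iterate_succ_apply'] at hz
  generalize (fn a b d)^[i] P = Q at hz
  induction Q using OnePoint.rec with
  | infty =>
    rw [fn_infty] at hz
    have hbz := OnePoint.coe_injective hz
    apply hex
    refine ⟨w, hw0, ?_⟩
    have e1 : a / w ^ (d + 1) + b / w = 1 := by
      apply mul_right_cancel₀ hw0
      rw [one_mul]
      refine Eq.trans ?_ efw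
      field_simp
      ring
    have e2 : a / w ^ (d + 1) = 1 - b / w := by linear_combination e1
    rw [e2, hbz]
    unfold excN
    exact mem_insert_of_mem (mem_union_left _ (mem_image.2 ⟨z / w, hU _ hζ, rfl⟩))
  | coe u =>
    by_cases hu0 : u = 0
    · subst hu0
      rw [fn_zero] at hz
      exact OnePoint.infty_ne_coe _ hz
    · have hρ := h3 u w (z / w) hu0 hw0 hfw hζ hζ1 (by rw [hz, ← hzz])
      apply hex
      refine ⟨w, hw0, mem_excN hu0 hw0 hρ (hRd _ hρ) (hU _ hζ) (hU 1 (one_pow d)) ?_ ?_⟩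
      · rw [fn_coe hu0] at hz
        rw [OnePoint.coe_injective hz]
        exact hzz
      · rw [one_mul, efw]

end abs


section north

open Height

variable {K : Type} [Field K] [NumberField K] {a b : K} {d : ℕ}

/-- the height -/
noncomputable def ht (P : OnePoint K) : ℝ := P.elim 0 fun x => logHeight₁ x

/-- Northcott -/
theorem finite_PP (a b : K) (ha : a ≠ 0) (hd : 2 ≤ d) :
    {P : OnePoint K | PP (fn a b d) P}.Finite := by
  set C : ℝ := logHeight₁ a + logHeight₁ b + totalWeight K * Real.log 2 with hC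
  have hC0 : 0 ≤ C := by
    have h1 := zero_le_logHeight₁ a
    have h2 := zero_le_logHeight₁ b
    have h3 : 0 ≤ Real.log 2 := Real.log_nonneg (by norm_num)
    positivity
  have hstep : ∀ x : K, x ≠ 0 → 2 * logHeight₁ x ≤ logHeight₁ (a / x ^ d + b) + C := by
    intro x hx
    have e1 : (a / x ^ d + b) - b = a / x ^ d := by ring
    have e2 := logHeight₁_sub_le (a / x ^ d + b) b
    rw [e1] at e2
    have e3 := logHeight₁_mul_le a⁻¹ (a / x ^ d)
    have e4 : a⁻¹ * (a / x ^ d) = (x ^ d)⁻¹ := by field_simp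
    rw [e4, logHeight₁_inv, logHeight₁_inv, logHeight₁_pow] at e3
    have e5 : (2 : ℝ) * logHeight₁ x ≤ d * logHeight₁ x := by
      have h5 : (2 : ℝ) ≤ d := by exact_mod_cast hd
      exact mul_le_mul_of_nonneg_right h5 (zero_le_logHeight₁ x)
    linarith
  have hsub : {P : OnePoint K | PP (fn a b d) P} ⊆
      insert ∞ ((fun x : K => (x : OnePoint K)) '' {x : K | logHeight₁ x ≤ C}) := by
    intro P hP
    by_contra hcon
    refine not_pp_of_incr (fn a b d) ht (fun Q => C < ht Q) ?_ ?_ hP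
    · intro Q hQ
      induction Q using OnePoint.rec with
      | infty => exact absurd hC0 (not_le.2 hQ)
      | coe x =>
        have hQ' : C < logHeight₁ x := hQ
        have hx : x ≠ 0 := by
          rintro rfl
          rw [logHeight₁_zero] at hQ'
          exact absurd hC0 (not_le.2 hQ')
        rw [fn_coe hx]
        have h1 := hstep x hx
        have h2 : logHeight₁ x < logHeight₁ (a / x ^ d + b) := by linarith
        exact ⟨hQ'.trans h2, h2⟩
    · induction P using OnePoint.rec with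
      | infty => exact absurd (Set.mem_insert _ _) hcon
      | coe x =>
        show C < logHeight₁ x
        by_contra hle
        push Not at hle
        exact hcon (Set.mem_insert_of_mem _ ⟨x, hle, rfl⟩)
  refine Set.Finite.subset (Set.Finite.insert _ (Set.Finite.image _ ?_)) hsub
  exact Northcott.finite_le C

end north

section conj

variable {K : Type*} [Field K] {a b : K} {d : ℕ}

/-- scaling -/
def sc (l : K) (P : OnePoint K) : OnePoint K := P.elim ∞ fun x => ((l * x : K) : OnePoint K)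

lemma sc_inj {l : K} (hl : l ≠ 0) : Function.Injective (sc l) := by
  intro P Q h
  induction P using OnePoint.rec with
  | infty =>
    induction Q using OnePoint.rec with
    | infty => rfl
    | coe y => exact absurd h (OnePoint.infty_ne_coe _)
  | coe x =>
    induction Q using OnePoint.rec with
    | infty => exact absurd h (OnePoint.coe_ne_infty _)
    | coe y =>
      have := OnePoint.coe_injective h
      rw [mul_left_cancel₀ hl this]

lemma sc_fn {l : K} (hl : l ≠ 0) (P : OnePoint K) :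
    fn a b d (sc l P) = sc l (fn (a / l ^ (d + 1)) (b / l) d P) := by
  induction P using OnePoint.rec with
  | infty =>
    show (b : OnePoint K) = ((l * (b / l) : K) : OnePoint K)
    rw [mul_div_cancel₀ _ hl]
  | coe x =>
    by_cases hx : x = 0
    · subst hx
      show fn a b d ((l * 0 : K) : OnePoint K) = _
      rw [mul_zero, fn_zero, fn_zero]
      rfl
    · show fn a b d ((l * x : K) : OnePoint K) = _
      rw [fn_coe (mul_ne_zero hl hx), fn_coe hx]
      show _ = ((l * (a / l ^ (d + 1) / x ^ d + b / l) : K) : OnePoint K)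
      congr 1
      rw [mul_pow, pow_succ]
      field_simp

lemma sc_iter {l : K} (hl : l ≠ 0) (k : ℕ) (P : OnePoint K) :
    (fn a b d)^[k] (sc l P) = sc l ((fn (a / l ^ (d + 1)) (b / l) d)^[k] P) := by
  induction k with
  | zero => rfl
  | succ k ih => rw [Function.iterate_succ_apply', Function.iterate_succ_apply', ih, sc_fn hl]

lemma sc_PP {l : K} (hl : l ≠ 0) (P : OnePoint K) :
    PP (fn a b d) (sc l P) ↔ PP (fn (a / l ^ (d + 1)) (b / l) d) P := by
  constructor
  · rintro ⟨i, j, hij, he⟩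
    rw [sc_iter hl, sc_iter hl] at he
    exact ⟨i, j, hij, sc_inj hl he⟩
  · rintro ⟨i, j, hij, he⟩
    exact ⟨i, j, hij, by rw [sc_iter hl, sc_iter hl, he]⟩

lemma encard_sc {l : K} (hl : l ≠ 0) : {P : OnePoint K | PP (fn a b d) P}.encard =
    {P : OnePoint K | PP (fn (a / l ^ (d + 1)) (b / l) d) P}.encard := by
  have e : {P : OnePoint K | PP (fn a b d) P} =
      sc l '' {P : OnePoint K | PP (fn (a / l ^ (d + 1)) (b / l) d) P} := by
    ext P
    constructor
    · intro hP
      have e : sc l (sc l⁻¹ P) = P := by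
        induction P using OnePoint.rec with
        | infty => rfl
        | coe x =>
          show ((l * (l⁻¹ * x) : K) : OnePoint K) = _
          rw [mul_inv_cancel_left₀ hl]
      refine ⟨sc l⁻¹ P, ?_, e⟩
      show PP _ _
      rw [← sc_PP hl, e]
      exact hP
    · rintro ⟨Q, hQ, rfl⟩
      exact (sc_PP hl Q).2 hQ
  rw [e, (sc_inj hl).encard_image]

end conj

end Pool.Agent.Zk42.UN
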