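import Pool.Agent.Zk42.UC.Loc2

/-! The maps `a / x ^ d + b` on the projective line: potentially good places. -/

set_option autoImplicit false

namespace Pool.Agent.Zk42.UN

open Finset Polynomial OnePoint Pool.Agent.Zk42.UC

section field

variable {L : Type*} [Field L] {a b : L} {d : ℕ} {μ : L}

open Classical in
/-- the map `x ↦ a / x ^ d + b` on the projective line -/
noncomputable def fn (a b : L) (d : ℕ) (P : OnePoint L) : OnePoint L :=
  P.elim (b : OnePoint L) fun x => if x = 0 then ∞ else ((a / x ^ d + b : L) : OnePoint L)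

lemma fn_infty : fn a b d ∞ = (b : OnePoint L) := rfl

lemma fn_zero : fn a b d ((0 : L) : OnePoint L) = ∞ := by simp [fn]

lemma fn_coe {x : L} (hx : x ≠ 0) :
    fn a b d (x : OnePoint L) = ((a / x ^ d + b : L) : OnePoint L) := by simp [fn, hx]

/-- homogeneous coordinates -/
def vec (P : OnePoint L) : L × L := P.elim (1, 0) fun x => (x, 1)

lemma vec_infty : vec (∞ : OnePoint L) = (1, 0) := rfl

lemma vec_coe (x : L) : vec (x : OnePoint L) = (x, 1) := rfl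

/-- the value of `x - ζ y` in homogeneous coordinates -/
def W (ζ : L) (P Q : OnePoint L) : L := (vec P).1 * (vec Q).2 - ζ * ((vec P).2 * (vec Q).1)

lemma W_coe (ζ x y : L) : W ζ (x : OnePoint L) (y : OnePoint L) = x - ζ * y := by
  unfold W
  rw [vec_coe, vec_coe]
  ring

lemma W_one_ne {P Q : OnePoint L} (h : P ≠ Q) : W 1 P Q ≠ 0 := by
  induction P using OnePoint.rec with
  | infty =>
    induction Q using OnePoint.rec with
    | infty => exact absurd rfl h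
    | coe y => unfold W; rw [vec_infty, vec_coe]; simp
  | coe x =>
    induction Q using OnePoint.rec with
    | infty => unfold W; rw [vec_infty, vec_coe]; simp
    | coe y =>
      rw [W_coe, one_mul]
      intro h0
      exact h (by rw [sub_eq_zero.1 h0])

lemma lift (ha : a ≠ 0) (hd : 0 < d) (P : OnePoint L) : ∃ l : L, l ≠ 0 ∧
    a * (vec P).2 ^ d + b * (vec P).1 ^ d = l * (vec (fn a b d P)).1 ∧
    (vec P).1 ^ d = l * (vec (fn a b d P)).2 := by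
  induction P using OnePoint.rec with
  | infty =>
    rw [fn_infty, vec_infty, vec_coe]
    exact ⟨1, one_ne_zero, by simp [zero_pow hd.ne'], by simp⟩
  | coe x =>
    by_cases hx : x = 0
    · subst hx
      rw [fn_zero, vec_infty, vec_coe]
      exact ⟨a, ha, by simp [zero_pow hd.ne'], by simp [zero_pow hd.ne']⟩
    · rw [fn_coe hx, vec_coe, vec_coe]
      refine ⟨x ^ d, pow_ne_zero _ hx, ?_, by simp⟩
      simp only [one_pow, mul_one]
      field_simp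

/-- the difference of the images -/
lemma W_step (hμ : IsPrimitiveRoot μ d) (hd : 0 < d) {P Q : OnePoint L} {l m : L}
    (h1 : a * (vec P).2 ^ d + b * (vec P).1 ^ d = l * (vec (fn a b d P)).1)
    (h2 : (vec P).1 ^ d = l * (vec (fn a b d P)).2)
    (h3 : a * (vec Q).2 ^ d + b * (vec Q).1 ^ d = m * (vec (fn a b d Q)).1)
    (h4 : (vec Q).1 ^ d = m * (vec (fn a b d Q)).2) :
    l * m * W 1 (fn a b d P) (fn a b d Q) = -(a * ∏ ζ ∈ nthRootsFinset d (1 : L), W ζ P Q) := by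
  unfold W
  rw [← hμ.pow_sub_pow_eq_prod_sub_mul _ _ hd]
  calc l * m * ((vec (fn a b d P)).1 * (vec (fn a b d Q)).2 -
        1 * ((vec (fn a b d P)).2 * (vec (fn a b d Q)).1))
      = (l * (vec (fn a b d P)).1) * (m * (vec (fn a b d Q)).2) -
        (l * (vec (fn a b d P)).2) * (m * (vec (fn a b d Q)).1) := by ring
    _ = _ := by
        rw [← h1, ← h2, ← h3, ← h4]
        ring

end field

section val

variable {L : Type*} [Field L] {Γ : Type*} [LinearOrderedCommGroupWithZero Γ] (v : Valuation L Γ)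
  {a b : L} {d : ℕ} {μ : L} {ℓ : Γ}

/-- the norm of the coordinate vector -/
def nrm (ℓ : Γ) (P : OnePoint L) : Γ := max (v (vec P).1) (ℓ * v (vec P).2)

lemma nrm_ne (hℓ : ℓ ≠ 0) (P : OnePoint L) : nrm v ℓ P ≠ 0 := by
  unfold nrm
  induction P using OnePoint.rec with
  | infty =>
    rw [vec_infty]
    simp only [map_one, map_zero, mul_zero]
    exact (lt_of_lt_of_le zero_lt_one (le_max_left _ _)).ne'
  | coe x =>
    rw [vec_coe]
    simp only [map_one, mul_one]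
    exact (lt_of_lt_of_le (zero_lt_iff.2 hℓ) (le_max_right _ _)).ne'

/-- the scaled distance of `P` and `ζ Q` -/
def D (ℓ : Γ) (ζ : L) (P Q : OnePoint L) : Γ := ℓ * v (W ζ P Q) / (nrm v ℓ P * nrm v ℓ Q)

lemma D_le (hℓ : ℓ ≠ 0) {ζ : L} (hd : d ≠ 0) (hζ : ζ ^ d = 1) (P Q : OnePoint L) :
    D v ℓ ζ P Q ≤ 1 := by
  unfold D
  have h0 : 0 < nrm v ℓ P * nrm v ℓ Q :=
    zero_lt_iff.2 (mul_ne_zero (nrm_ne v hℓ P) (nrm_ne v hℓ Q))
  rw [div_le_one₀ h0]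
  have h1 : v (W ζ P Q) ≤ max (v (vec P).1 * v (vec Q).2) (v (vec P).2 * v (vec Q).1) := by
    unfold W
    refine (Valuation.map_sub v _ _).trans ?_
    rw [map_mul, map_mul, map_mul, v_zeta v hd hζ, one_mul]
  have h2 : v (vec P).1 ≤ nrm v ℓ P := le_max_left _ _
  have h3 : v (vec Q).1 ≤ nrm v ℓ Q := le_max_left _ _
  have h4 : ℓ * v (vec P).2 ≤ nrm v ℓ P := le_max_right _ _
  have h5 : ℓ * v (vec Q).2 ≤ nrm v ℓ Q := le_max_right _ _
  calc ℓ * v (W ζ P Q) ≤ ℓ * max (v (vec P).1 * v (vec Q).2) (v (vec P).2 * v (vec Q).1) := by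
        gcongr
    _ ≤ nrm v ℓ P * nrm v ℓ Q := by
      rcases max_choice (v (vec P).1 * v (vec Q).2) (v (vec P).2 * v (vec Q).1) with h | h
      · rw [h]
        calc ℓ * (v (vec P).1 * v (vec Q).2) = v (vec P).1 * (ℓ * v (vec Q).2) := by ac_rfl
          _ ≤ _ := by gcongr
      · rw [h]
        calc ℓ * (v (vec P).2 * v (vec Q).1) = (ℓ * v (vec P).2) * v (vec Q).1 := by ac_rfl
          _ ≤ _ := by gcongr

lemma nrm_step (hℓ : ℓ ≠ 0) (ha : v a = ℓ ^ (d + 1)) (hb : v b ≤ ℓ) (hd : d ≠ 0)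
    {P : OnePoint L} {l : L}
    (h1 : a * (vec P).2 ^ d + b * (vec P).1 ^ d = l * (vec (fn a b d P)).1)
    (h2 : (vec P).1 ^ d = l * (vec (fn a b d P)).2) :
    v l * nrm v ℓ (fn a b d P) = ℓ * nrm v ℓ P ^ d := by
  have e1 : v l * nrm v ℓ (fn a b d P) =
      max (v (a * (vec P).2 ^ d + b * (vec P).1 ^ d)) (ℓ * v (vec P).1 ^ d) := by
    unfold nrm
    rw [h1, ← map_pow, h2, map_mul, map_mul]
    rcases le_total (v (vec (fn a b d P)).1) (ℓ * v (vec (fn a b d P)).2) with h | h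
    · rw [max_eq_right h, max_eq_right]
      · ac_rfl
      · calc v l * v (vec (fn a b d P)).1 ≤ v l * (ℓ * v (vec (fn a b d P)).2) := by gcongr
          _ = _ := by ac_rfl
    · rw [max_eq_left h, max_eq_left]
      calc ℓ * (v l * v (vec (fn a b d P)).2) = v l * (ℓ * v (vec (fn a b d P)).2) := by ac_rfl
        _ ≤ _ := by gcongr
  rw [e1]
  unfold nrm
  have hbp : v (b * (vec P).1 ^ d) ≤ ℓ * v (vec P).1 ^ d := by
    rw [map_mul, map_pow]
    gcongr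
  have hap : v (a * (vec P).2 ^ d) = ℓ * (ℓ * v (vec P).2) ^ d := by
    rw [map_mul, map_pow, ha, mul_pow, pow_succ']
    ac_rfl
  rcases le_or_gt (ℓ * v (vec P).2) (v (vec P).1) with h | h
  · rw [max_eq_left h, max_eq_right]
    refine (Valuation.map_add v _ _).trans (max_le ?_ hbp)
    rw [hap]
    gcongr
  · rw [max_eq_right h.le]
    have hlt : ℓ * v (vec P).1 ^ d < ℓ * (ℓ * v (vec P).2) ^ d :=
      mul_lt_mul_of_pos_left (pow_lt_pow_left₀ h zero_le hd) (zero_lt_iff.2 hℓ)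
    rw [Valuation.map_add_eq_of_lt_left v (by rw [hap]; exact hbp.trans_lt hlt), hap,
      max_eq_left hlt.le]

lemma D_step (hμ : IsPrimitiveRoot μ d) (hd : 0 < d) (ha0 : a ≠ 0) (hℓ : ℓ ≠ 0)
    (ha : v a = ℓ ^ (d + 1)) (hb : v b ≤ ℓ) (P Q : OnePoint L) :
    D v ℓ 1 (fn a b d P) (fn a b d Q) = ∏ ζ ∈ nthRootsFinset d (1 : L), D v ℓ ζ P Q := by
  obtain ⟨l, hl, h1, h2⟩ := lift (b := b) ha0 hd P
  obtain ⟨m, hm, h3, h4⟩ := lift (b := b) ha0 hd Q
  have n1 := nrm_step v hℓ ha hb hd.ne' h1 h2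
  have n2 := nrm_step v hℓ ha hb hd.ne' h3 h4
  have w := congrArg v (W_step hμ hd h1 h2 h3 h4)
  rw [Valuation.map_neg, map_mul, map_mul, map_mul, ha, map_prod] at w
  have hvl : v l ≠ 0 := (Valuation.ne_zero_iff v).2 hl
  have hvm : v m ≠ 0 := (Valuation.ne_zero_iff v).2 hm
  have hP := nrm_ne v hℓ P
  have hQ := nrm_ne v hℓ Q
  have hfP := nrm_ne v hℓ (fn a b d P)
  have hfQ := nrm_ne v hℓ (fn a b d Q)
  have e1 : ∏ ζ ∈ nthRootsFinset d (1 : L), D v ℓ ζ P Q =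
      ℓ ^ d * (∏ ζ ∈ nthRootsFinset d (1 : L), v (W ζ P Q)) / (nrm v ℓ P * nrm v ℓ Q) ^ d := by
    unfold D
    rw [prod_div_distrib, prod_mul_distrib, prod_const, prod_const, hμ.card_nthRootsFinset]
  rw [e1]
  unfold D
  rw [div_eq_div_iff (mul_ne_zero hfP hfQ) (pow_ne_zero _ (mul_ne_zero hP hQ))]
  apply mul_left_cancel₀ (mul_ne_zero (mul_ne_zero hvl hvm) (mul_ne_zero hℓ hℓ))
  calc v l * v m * (ℓ * ℓ) * (ℓ * v (W 1 (fn a b d P) (fn a b d Q)) *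
        (nrm v ℓ P * nrm v ℓ Q) ^ d)
      = (v l * v m * v (W 1 (fn a b d P) (fn a b d Q))) * (ℓ * ℓ * ℓ *
        (nrm v ℓ P ^ d * nrm v ℓ Q ^ d)) := by rw [mul_pow]; ac_rfl
    _ = (ℓ ^ (d + 1) * ∏ ζ ∈ nthRootsFinset d (1 : L), v (W ζ P Q)) * (ℓ * ℓ * ℓ *
        (nrm v ℓ P ^ d * nrm v ℓ Q ^ d)) := by rw [w]
    _ = (ℓ ^ d * ∏ ζ ∈ nthRootsFinset d (1 : L), v (W ζ P Q)) * (ℓ * ℓ) *
        ((ℓ * nrm v ℓ P ^ d) * (ℓ * nrm v ℓ Q ^ d)) := by rw [pow_succ ℓ d]; ac_rfl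
    _ = (ℓ ^ d * ∏ ζ ∈ nthRootsFinset d (1 : L), v (W ζ P Q)) * (ℓ * ℓ) *
        ((v l * nrm v ℓ (fn a b d P)) * (v m * nrm v ℓ (fn a b d Q))) := by rw [n1, n2]
    _ = _ := by ac_rfl

variable [DecidableEq L]

lemma D_step_le (hμ : IsPrimitiveRoot μ d) (hd : 0 < d) (ha0 : a ≠ 0) (hℓ : ℓ ≠ 0)
    (ha : v a = ℓ ^ (d + 1)) (hb : v b ≤ ℓ) {ζ : L} (hζ : ζ ^ d = 1) (P Q : OnePoint L) :
    D v ℓ 1 (fn a b d P) (fn a b d Q) ≤ D v ℓ ζ P Q := by
  rw [D_step v hμ hd ha0 hℓ ha hb, ← mul_prod_erase _ _ ((mem_roots hd).2 hζ)]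
  calc _ ≤ D v ℓ ζ P Q * 1 := by
        gcongr
        apply prod_le_one'
        intro ζ' hζ'
        rw [mem_erase, mem_roots hd] at hζ'
        exact D_le v hℓ hd.ne' hζ'.2 P Q
    _ = _ := mul_one _

lemma D_iter_le (hμ : IsPrimitiveRoot μ d) (hd : 0 < d) (ha0 : a ≠ 0) (hℓ : ℓ ≠ 0)
    (ha : v a = ℓ ^ (d + 1)) (hb : v b ≤ ℓ) (P Q : OnePoint L) (k : ℕ) :
    D v ℓ 1 ((fn a b d)^[k] P) ((fn a b d)^[k] Q) ≤ D v ℓ 1 P Q := by
  induction k with
  | zero => exact le_rfl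
  | succ k ih =>
    rw [Function.iterate_succ_apply', Function.iterate_succ_apply']
    exact (D_step_le v hμ hd ha0 hℓ ha hb (one_pow d) _ _).trans ih

/-- periodic pairs at potentially good places -/
lemma D_per (hμ : IsPrimitiveRoot μ d) (hd : 0 < d) (ha0 : a ≠ 0) (hℓ : ℓ ≠ 0)
    (ha : v a = ℓ ^ (d + 1)) (hb : v b ≤ ℓ) {P Q : OnePoint L} (hP : Per (fn a b d) P)
    (hQ : Per (fn a b d) Q) (hne : P ≠ Q) {ζ : L} (hζ : ζ ^ d = 1) (hζ1 : ζ ≠ 1) :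
    D v ℓ ζ P Q = 1 := by
  obtain ⟨N, hN, e1, e2⟩ := common_period hP hQ
  have h1 : D v ℓ 1 P Q ≤ D v ℓ 1 (fn a b d P) (fn a b d Q) := by
    have h2 := D_iter_le v hμ hd ha0 hℓ ha hb (fn a b d P) (fn a b d Q) (N - 1)
    rw [← Function.iterate_succ_apply, ← Function.iterate_succ_apply, Nat.succ_eq_add_one,
      Nat.sub_add_cancel hN, e1, e2] at h2
    exact h2
  have h0 : D v ℓ 1 P Q ≠ 0 := by
    unfold D
    exact div_ne_zero (mul_ne_zero hℓ ((Valuation.ne_zero_iff v).2 (W_one_ne hne)))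
      (mul_ne_zero (nrm_ne v hℓ P) (nrm_ne v hℓ Q))
  have h1mem : (1 : L) ∈ nthRootsFinset d (1 : L) := (mem_roots hd).2 (one_pow d)
  have hmem : ζ ∈ (nthRootsFinset d (1 : L)).erase 1 := mem_erase.2 ⟨hζ1, (mem_roots hd).2 hζ⟩
  rw [D_step v hμ hd ha0 hℓ ha hb, ← mul_prod_erase _ _ h1mem, ← mul_prod_erase _ _ hmem] at h1
  have h2 : ∏ ζ' ∈ ((nthRootsFinset d (1 : L)).erase 1).erase ζ, D v ℓ ζ' P Q ≤ 1 := by
    apply prod_le_one'
    intro ζ' hζ'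
    rw [mem_erase, mem_erase, mem_roots hd] at hζ'
    exact D_le v hℓ hd.ne' hζ'.2.2 P Q
  refine le_antisymm (D_le v hℓ hd.ne' hζ P Q) ?_
  have h3 : D v ℓ 1 P Q * 1 ≤ D v ℓ 1 P Q * D v ℓ ζ P Q := by
    rw [mul_one]
    calc D v ℓ 1 P Q ≤ D v ℓ 1 P Q * (D v ℓ ζ P Q *
          ∏ ζ' ∈ ((nthRootsFinset d (1 : L)).erase 1).erase ζ, D v ℓ ζ' P Q) := h1
      _ ≤ D v ℓ 1 P Q * (D v ℓ ζ P Q * 1) := by gcongr
      _ = _ := by rw [mul_one]
  exact le_of_mul_le_mul_left h3 (zero_lt_iff.2 h0)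

/-- periodic pairs, affine form -/
lemma good_perN (hμ : IsPrimitiveRoot μ d) (hd : 0 < d) (ha0 : a ≠ 0) (hℓ : ℓ ≠ 0)
    (ha : v a = ℓ ^ (d + 1)) (hb : v b ≤ ℓ) {x y : L} (hx : Per (fn a b d) (x : OnePoint L))
    (hy : Per (fn a b d) (y : OnePoint L)) (hne : x ≠ y) {ζ₁ ζ₂ : L} (h₁ : ζ₁ ^ d = 1)
    (h₂ : ζ₂ ^ d = 1) (n₁ : ζ₁ ≠ 1) (n₂ : ζ₂ ≠ 1) : v (x - ζ₁ * y) = v (x - ζ₂ * y) := by
  have hne' : (x : OnePoint L) ≠ (y : OnePoint L) := fun h => hne (OnePoint.coe_injective h)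
  have e1 := D_per v hμ hd ha0 hℓ ha hb hx hy hne' h₁ n₁
  have e2 := D_per v hμ hd ha0 hℓ ha hb hx hy hne' h₂ n₂
  have h0 : nrm v ℓ (x : OnePoint L) * nrm v ℓ (y : OnePoint L) ≠ 0 :=
    mul_ne_zero (nrm_ne v hℓ _) (nrm_ne v hℓ _)
  unfold D at e1 e2
  rw [W_coe, div_eq_one_iff_eq h0] at e1 e2
  exact mul_left_cancel₀ hℓ (e1.trans e2.symm)

/-- a point with image `ζ z`, `z` a fixed point -/
lemma good_tailN (hμ : IsPrimitiveRoot μ d) (hd : 0 < d) (hvd : v (d : L) = 1) (ha0 : a ≠ 0)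
    (hℓ : ℓ ≠ 0)
    (ha : v a = ℓ ^ (d + 1)) (hb : v b ≤ ℓ) {x z ζ : L} (hz : fn a b d (z : OnePoint L) = z)
    (hζ : ζ ^ d = 1) (hζ1 : ζ ≠ 1) (h1 : fn a b d (x : OnePoint L) = ((ζ * z : L) : OnePoint L))
    {ζ' : L} (hζ' : ζ' ^ d = 1) : v (x - ζ' * z) = max (v x) (v z) := by
  rcases eq_or_ne (v x) (v z) with h | h
  · refine le_antisymm (v_sub_le v hd.ne' hζ' x z) ?_
    rw [h, max_self]
    have s1 := D_step_le v hμ hd ha0 hℓ ha hb hζ' (x : OnePoint L) (z : OnePoint L)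
    rw [h1, hz] at s1
    unfold D at s1
    rw [W_coe, W_coe, one_mul] at s1
    have e : ζ * z - z = (ζ - 1) * z := by ring
    rw [e, map_mul, v_zeta_one v hd hvd hζ hζ1, one_mul] at s1
    have e1 : nrm v ℓ ((ζ * z : L) : OnePoint L) = nrm v ℓ (z : OnePoint L) := by
      unfold nrm
      rw [vec_coe, vec_coe]
      simp only
      rw [map_mul, v_zeta v hd.ne' hζ, one_mul]
    have e2 : nrm v ℓ (x : OnePoint L) = nrm v ℓ (z : OnePoint L) := by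
      unfold nrm
      rw [vec_coe, vec_coe]
      simp only
      rw [h]
    rw [e1, e2] at s1
    have h0 : 0 < nrm v ℓ (z : OnePoint L) * nrm v ℓ (z : OnePoint L) :=
      zero_lt_iff.2 (mul_ne_zero (nrm_ne v hℓ _) (nrm_ne v hℓ _))
    rw [div_le_div_iff_of_pos_right h0] at s1
    exact le_of_mul_le_mul_left s1 (zero_lt_iff.2 hℓ)
  · rcases lt_or_gt_of_ne h with h | h
    · rw [max_eq_right h.le]
      have e : x - ζ' * z = -(ζ' * z - x) := by ring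
      rw [e, Valuation.map_neg, Valuation.map_sub_eq_of_lt_left]
      · rw [map_mul, v_zeta v hd.ne' hζ', one_mul]
      · rw [map_mul, v_zeta v hd.ne' hζ', one_mul]
        exact h
    · rw [max_eq_left h.le]
      apply Valuation.map_sub_eq_of_lt_left
      rw [map_mul, v_zeta v hd.ne' hζ', one_mul]
      exact h

end val

end Pool.Agent.Zk42.UN
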