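import Pool.Agent.Zk42.UN.Bad

/-! The maps `a / x ^ d + b` on the projective line: the ratios of the periodic points. -/

set_option autoImplicit false

namespace Pool.Agent.Zk42.UN

open Finset Polynomial OnePoint Pool.Agent.Zk42.UC IsDedekindDomain NumberField
open scoped WithZero NNReal

/-- real valuations -/
noncomputable def real {F : Type} [Field F] (v : Valuation F ℤᵐ⁰) : Valuation F ℝ≥0 :=
  v.map (WithZeroMulInt.toNNReal (e := 2) two_ne_zero)
    (WithZeroMulInt.toNNReal_strictMono one_lt_two).monotone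

lemma real_apply {F : Type} [Field F] (v : Valuation F ℤᵐ⁰) (x : F) :
    real v x = WithZeroMulInt.toNNReal (e := 2) two_ne_zero (v x) := rfl

lemma real_inj {F : Type} [Field F] (v : Valuation F ℤᵐ⁰) {x y : F} (h : real v x = real v y) :
    v x = v y :=
  (WithZeroMulInt.toNNReal_strictMono (e := 2) one_lt_two).injective h

lemma real_le {F : Type} [Field F] (v : Valuation F ℤᵐ⁰) {x y : F} (h : v x ≤ v y) :
    real v x ≤ real v y :=
  (WithZeroMulInt.toNNReal_strictMono (e := 2) one_lt_two).monotone h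

/-- the radius at a potentially good place -/
lemma exists_ell {F : Type} [Field F] (v : Valuation F ℤᵐ⁰) {a b : F} {d : ℕ} (ha : a ≠ 0)
    (h : v b ^ (d + 1) ≤ v a) :
    ∃ ℓ : ℝ≥0, ℓ ≠ 0 ∧ real v a = ℓ ^ (d + 1) ∧ real v b ≤ ℓ := by
  have ha' : real v a ≠ 0 := (Valuation.ne_zero_iff _).2 ha
  have h1 : ((real v a) ^ (((d + 1 : ℕ) : ℝ)⁻¹)) ^ (d + 1) = real v a :=
    NNReal.rpow_inv_natCast_pow _ (Nat.succ_ne_zero d)
  refine ⟨(real v a) ^ (((d + 1 : ℕ) : ℝ)⁻¹), ?_, h1.symm, ?_⟩
  · intro h0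
    rw [h0, zero_pow (Nat.succ_ne_zero d)] at h1
    exact ha' h1.symm
  · by_contra hc
    push Not at hc
    have h2 := pow_lt_pow_left₀ hc zero_le (Nat.succ_ne_zero d)
    rw [h1, ← map_pow] at h2
    rw [← map_pow] at h
    exact absurd (real_le v h) (not_le.2 h2)

section main

variable {L : Type} [Field L] [NumberField L] [DecidableEq L] {d n : ℕ} {μ : L} {a b : L}

omit [NumberField L] [DecidableEq L] in
lemma pow_ne_of_fn {x y : L} (hx : x ≠ 0) (hy : y ≠ 0)
    (h : fn a b d (x : OnePoint L) ≠ fn a b d (y : OnePoint L)) : x ^ d ≠ y ^ d := by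
  intro h1
  apply h
  rw [fn_coe hx, fn_coe hy, h1]

/-- two different periodic points -/
lemma per_ratioN {S : Set (HeightOneSpectrum (𝓞 L))} (hdS : ∀ v ∉ S, v.valuation L (d : L) = 1)
    {T : Finset L} (hT : Good S n T) (hμ : IsPrimitiveRoot μ d) (hd : 0 < d) (ha0 : a ≠ 0)
    {x y : L} (hx0 : x ≠ 0) (hy0 : y ≠ 0)
    (hC : ∀ v : HeightOneSpectrum (𝓞 L), v ∉ S → v.valuation L a < v.valuation L b ^ (d + 1) →
      v.valuation L b * v.valuation L y ^ d = v.valuation L a →
      ∃ h : ℤᵐ⁰, v.valuation L a = v.valuation L y ^ (d + 1) * h ^ n)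
    (hx : Per (fn a b d) (x : OnePoint L)) (hy : Per (fn a b d) (y : OnePoint L))
    (hne : x ≠ y) : x / y ∈ Rset L d n T := by
  refine ratio_mem hT (pow_ne_of_fn (a := a) (b := b) hx0 hy0 ?_) hy0 ?_
  · intro h
    exact hne (OnePoint.coe_injective (per_inj hx hy (k := 1) h))
  intro v hv ζ₁ ζ₂ h₁ h₂ n₁ n₂
  rcases le_or_gt (v.valuation L b ^ (d + 1)) (v.valuation L a) with ht | ht
  · obtain ⟨ℓ, hℓ, ha, hb⟩ := exists_ell (v.valuation L) ha0 ht
    have := good_perN (real (v.valuation L)) hμ hd ha0 hℓ ha hb hx hy hne h₁ h₂ n₁ n₂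
    exact ⟨1, by rw [real_inj _ this, one_pow, mul_one]⟩
  · exact bad_perN (v.valuation L) hμ hd (hdS v hv) ha0 ht hx hy hne (hC v hv ht) h₁ h₂

/-- a point with image `ζ z`, `z` a fixed point -/
lemma tail_ratioN {S : Set (HeightOneSpectrum (𝓞 L))} (hdS : ∀ v ∉ S, v.valuation L (d : L) = 1)
    {T : Finset L} (hT : Good S n T) (hμ : IsPrimitiveRoot μ d) (hd : 0 < d) (ha0 : a ≠ 0)
    {x z ζ : L} (hx0 : x ≠ 0) (hz0 : z ≠ 0)
    (hC : ∀ v : HeightOneSpectrum (𝓞 L), v ∉ S → v.valuation L a < v.valuation L b ^ (d + 1) →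
      v.valuation L b * v.valuation L z ^ d = v.valuation L a →
      ∃ h : ℤᵐ⁰, v.valuation L a = v.valuation L z ^ (d + 1) * h ^ n)
    (hz : fn a b d (z : OnePoint L) = z) (hζ : ζ ^ d = 1) (hζ1 : ζ ≠ 1)
    (h1 : fn a b d (x : OnePoint L) = ((ζ * z : L) : OnePoint L)) : x / z ∈ Rset L d n T := by
  refine ratio_mem hT (pow_ne_of_fn (a := a) (b := b) hx0 hz0 ?_) hz0 ?_
  · intro h
    rw [h1, hz] at h
    have h2 := OnePoint.coe_injective h
    apply hζ1
    apply mul_right_cancel₀ hz0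
    rw [h2, one_mul]
  intro v hv ζ₁ ζ₂ h₁ h₂ n₁ n₂
  rcases le_or_gt (v.valuation L b ^ (d + 1)) (v.valuation L a) with ht | ht
  · obtain ⟨ℓ, hℓ, ha, hb⟩ := exists_ell (v.valuation L) ha0 ht
    have hvd : real (v.valuation L) (d : L) = 1 := by
      rw [real_apply, hdS v hv, map_one]
    have e1 := good_tailN (real (v.valuation L)) hμ hd hvd ha0 hℓ ha hb hz hζ hζ1 h1 h₁
    have e2 := good_tailN (real (v.valuation L)) hμ hd hvd ha0 hℓ ha hb hz hζ hζ1 h1 h₂
    exact ⟨1, by rw [real_inj _ (e1.trans e2.symm), one_pow, mul_one]⟩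
  · exact bad_tailN (v.valuation L) hμ hd (hdS v hv) ha0 ht hx0 hz0 hz hζ hζ1 h1 (hC v hv ht) h₁ h₂

end main

section desc

/-- the condition at the primes outside `S` -/
def CondN {K : Type} [Field K] [NumberField K] (S : Set (HeightOneSpectrum (𝓞 K))) (a b : K)
    (d n : ℕ) : Prop :=
  ∀ v : HeightOneSpectrum (𝓞 K), v ∉ S → v.valuation K a < v.valuation K b ^ (d + 1) →
    ∀ r : ℤᵐ⁰, v.valuation K b * r ^ d = v.valuation K a →
      ∃ h : ℤᵐ⁰, v.valuation K a = r ^ (d + 1) * h ^ n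

variable {K L : Type} [Field K] [Field L] [Algebra K L] {a b : K} {d : ℕ}

/-- the projective line over `L` -/
def up (P : OnePoint K) : OnePoint L := P.elim ∞ fun x => ((algebraMap K L x : L) : OnePoint L)

lemma up_inj : Function.Injective (up : OnePoint K → OnePoint L) := by
  intro P Q h
  induction P using OnePoint.rec with
  | infty =>
    induction Q using OnePoint.rec with
    | infty => rfl
    | coe y => exact absurd h (OnePoint.infty_ne_coe _)
  | coe x =>
    induction Q using OnePoint.rec with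
    | infty => exact absurd h (OnePoint.coe_ne_infty _)
    | coe y =>
      have := OnePoint.coe_injective h
      rw [(algebraMap K L).injective this]

lemma up_fn (P : OnePoint K) :
    up (fn a b d P) = fn (algebraMap K L a) (algebraMap K L b) d (up P : OnePoint L) := by
  induction P using OnePoint.rec with
  | infty => rfl
  | coe x =>
    by_cases hx : x = 0
    · subst hx
      rw [fn_zero]
      show (∞ : OnePoint L) = fn _ _ d ((algebraMap K L 0 : L) : OnePoint L)
      rw [map_zero, fn_zero]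
    · rw [fn_coe hx]
      show ((algebraMap K L (a / x ^ d + b) : L) : OnePoint L) =
        fn _ _ d ((algebraMap K L x : L) : OnePoint L)
      rw [fn_coe (fun h => hx ((map_eq_zero _).1 h)), map_add, map_div₀, map_pow]

lemma up_iter (k : ℕ) (P : OnePoint K) :
    up ((fn a b d)^[k] P) =
      (fn (algebraMap K L a) (algebraMap K L b) d)^[k] (up P : OnePoint L) := by
  induction k with
  | zero => rfl
  | succ k ih => rw [Function.iterate_succ_apply', Function.iterate_succ_apply', up_fn, ih]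

lemma per_upN {P : OnePoint K} (h : Per (fn a b d) P) :
    Per (fn (algebraMap K L a) (algebraMap K L b) d) (up P : OnePoint L) := by
  obtain ⟨n, hn, he⟩ := h
  exact ⟨n, hn, by rw [← up_iter, he]⟩

end desc

/-- the condition over the extension -/
lemma cond_upN {K L : Type} [Field K] [NumberField K] [Field L] [NumberField L] [Algebra K L]
    {S : Set (HeightOneSpectrum (𝓞 K))} {SL : Set (HeightOneSpectrum (𝓞 L))} {n d : ℕ}
    (h : ∀ w ∉ SL, w.valuation L ((d : ℕ) : L) = 1 ∧
      ∃ (v : HeightOneSpectrum (𝓞 K)) (e : ℕ), e ≠ 0 ∧ v ∉ S ∧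
        v.valuation K ((d : ℕ) : K) = 1 ∧
        ∀ x : K, w.valuation L (algebraMap K L x) = v.valuation K x ^ e)
    {a b : K} (hC : CondN S a b d n) (y : K) : ∀ w : HeightOneSpectrum (𝓞 L), w ∉ SL →
      w.valuation L (algebraMap K L a) < w.valuation L (algebraMap K L b) ^ (d + 1) →
      w.valuation L (algebraMap K L b) * w.valuation L (algebraMap K L y) ^ d =
        w.valuation L (algebraMap K L a) →
      ∃ h : ℤᵐ⁰, w.valuation L (algebraMap K L a) =
        w.valuation L (algebraMap K L y) ^ (d + 1) * h ^ n := by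
  intro w hw h1 h2
  obtain ⟨-, v, e, he0, hvS, -, hval⟩ := h w hw
  rw [hval, hval] at h1
  rw [hval, hval, hval] at h2
  have h3 : v.valuation K a < v.valuation K b ^ (d + 1) := by
    by_contra hc
    push Not at hc
    have h4 := pow_le_pow_left₀ zero_le hc e
    rw [← pow_mul, Nat.mul_comm, pow_mul] at h4
    exact absurd h1 (not_lt.2 h4)
  have h4 : v.valuation K b * v.valuation K y ^ d = v.valuation K a := by
    apply eq_of_pow_eq he0
    rw [mul_pow, ← pow_mul, Nat.mul_comm d, pow_mul]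
    exact h2
  obtain ⟨g, hg⟩ := hC v hvS h3 _ h4
  refine ⟨g ^ e, ?_⟩
  rw [hval, hval, hg, mul_pow, ← pow_mul, ← pow_mul, ← pow_mul, ← pow_mul, Nat.mul_comm e,
    Nat.mul_comm e]

/-- the finite set of ratios -/
theorem ratiosN {n d : ℕ} (hsel : SelN n) (hd : 0 < d)
    (hfin : ∀ (L : Type) [Field L] [NumberField L] (μ : L), IsPrimitiveRoot μ d → ∀ T : Finset L,
      (∀ t ∈ T, t ≠ 0) → (Rset L d n T).Finite)
    (K : Type) [Field K] [NumberField K] (S : Set (HeightOneSpectrum (𝓞 K))) (hS : S.Finite) :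
    ∃ (R : Finset K), (∀ ρ ∈ R, ρ ^ d ≠ 1) ∧ ∀ a b : K, a ≠ 0 → CondN S a b d n →
      (∀ x y : K, x ≠ 0 → y ≠ 0 → Per (fn a b d) (x : OnePoint K) →
        Per (fn a b d) (y : OnePoint K) → x ≠ y → x / y ∈ R) ∧
      (∀ x z ζ : K, x ≠ 0 → z ≠ 0 → fn a b d (z : OnePoint K) = z → ζ ^ d = 1 → ζ ≠ 1 →
        fn a b d (x : OnePoint K) = ((ζ * z : K) : OnePoint K) → x / z ∈ R) := by
  classical
  have hne : NeZero d := ⟨by omega⟩
  let L := CyclotomicField d K
  have hμ : IsPrimitiveRoot (IsCyclotomicExtension.zeta d K L) d :=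
    IsCyclotomicExtension.zeta_spec d K L
  obtain ⟨SL, hSLfin, hout⟩ := places K L S hS d (by omega)
  obtain ⟨T, hT0, hT⟩ := hsel L SL hSLfin
  have hinj : Function.Injective (algebraMap K L) := (algebraMap K L).injective
  have hdS : ∀ w ∉ SL, w.valuation L ((d : ℕ) : L) = 1 := fun w hw => (hout w hw).1
  have hRfin : ((algebraMap K L) ⁻¹' (Rset L d n T)).Finite :=
    (hfin L _ hμ T hT0).preimage hinj.injOn
  refine ⟨hRfin.toFinset, ?_, ?_⟩
  · intro ρ hρ h1
    rw [Set.Finite.mem_toFinset] at hρ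
    apply hρ.1
    rw [← map_pow, h1, map_one]
  intro a b ha hC
  have ha' : algebraMap K L a ≠ 0 := fun h => ha ((map_eq_zero (algebraMap K L)).1 h)
  refine ⟨?_, ?_⟩
  · intro x y hx0 hy0 hx hy hne'
    rw [Set.Finite.mem_toFinset, Set.mem_preimage, map_div₀]
    exact per_ratioN hdS hT hμ hd ha' (fun h => hx0 ((map_eq_zero (algebraMap K L)).1 h))
      (fun h => hy0 ((map_eq_zero (algebraMap K L)).1 h)) (cond_upN hout hC y) (per_upN hx) (per_upN hy)
      (fun h => hne' (hinj h))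
  · intro x z ζ hx0 hz0 hz hζ hζ1 h1
    rw [Set.Finite.mem_toFinset, Set.mem_preimage, map_div₀]
    refine tail_ratioN (ζ := algebraMap K L ζ) hdS hT hμ hd ha'
      (fun h => hx0 ((map_eq_zero (algebraMap K L)).1 h))
      (fun h => hz0 ((map_eq_zero (algebraMap K L)).1 h)) (cond_upN hout hC z) ?_ ?_ ?_ ?_
    · exact (up_fn (L := L) (z : OnePoint K)).symm.trans (congrArg up hz)
    · rw [← map_pow, hζ, map_one]
    · intro h
      apply hζ1
      apply hinj
      rw [h, map_one]
    · rw [← map_mul]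
      exact (up_fn (L := L) (x : OnePoint K)).symm.trans (congrArg up h1)

end Pool.Agent.Zk42.UN
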